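import Mathlib

set_option autoImplicit false

/-!
# Ubiquity: full measure of a limsup set (helper429 for helper443)

Static argument: for a closed set `B` which misses all intervals `ball c (Φ l)`, `c ∈ P l`, the
level sets of the distance to `B` are large at every level `l`.
-/

open MeasureTheory Filter

namespace Pool.Agent.TH443.MJ

namespace UbiT

/-- a shell about `B` -/
def shell (B : Set ℝ) (s t : ℝ) : Set ℝ := {x | s / 2 < Metric.infDist x B ∧
  Metric.infDist x B ≤ t / 2}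

theorem shell_meas (B : Set ℝ) (s t : ℝ) : MeasurableSet (shell B s t) := by
  have h : Measurable fun x : ℝ => Metric.infDist x B := (Metric.continuous_infDist_pt B).measurable
  exact (measurableSet_lt measurable_const h).inter (measurableSet_le h measurable_const)

/-- one centre contributes to the shell -/
theorem one_centre {B : Set ℝ} (hB : IsCompact B) (hne : B.Nonempty) {c ρ s t : ℝ}
    (hc1 : ∀ y ∈ B, t ≤ |y - c|) (hc2 : ∃ y ∈ B, |y - c| < ρ) (hs : 0 ≤ s) (hst : s ≤ t)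
    (ht : 0 < t) :
    ENNReal.ofReal ((t - s) / 2) ≤ volume (shell B s t ∩ Metric.closedBall c ρ) := by
  obtain ⟨y, hy, hyd⟩ := hB.exists_infDist_eq_dist hne c
  have hdρ : dist c y < ρ := by
    obtain ⟨z, hz, hzd⟩ := hc2
    rw [← hyd]
    refine lt_of_le_of_lt (Metric.infDist_le_dist_of_mem hz) ?_
    rw [dist_comm, Real.dist_eq]
    exact hzd
  have hdt : t ≤ dist c y := by
    rw [dist_comm, Real.dist_eq]
    exact hc1 y hy
  rcases lt_trichotomy c y with hcy | hcy | hcy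
  · have hd : dist c y = y - c := by
      rw [dist_comm, Real.dist_eq, abs_of_pos (by linarith)]
    rw [hd] at hdρ hdt hyd
    have hv : volume (Set.Ico (y - t / 2) (y - s / 2)) = ENNReal.ofReal ((t - s) / 2) := by
      rw [Real.volume_Ico]
      congr 1
      ring
    rw [← hv]
    apply measure_mono
    rintro x ⟨hx1, hx2⟩
    have h1 : Metric.infDist x B ≤ y - x := by
      refine (Metric.infDist_le_dist_of_mem hy).trans ?_
      rw [dist_comm, Real.dist_eq, abs_of_pos (by linarith)]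
    have h2 : y - x ≤ Metric.infDist x B := by
      have := Metric.infDist_le_infDist_add_dist (s := B) (x := c) (y := x)
      rw [hyd, dist_comm, Real.dist_eq, abs_of_pos (by linarith)] at this
      linarith
    refine ⟨⟨by linarith, by linarith⟩, ?_⟩
    rw [Metric.mem_closedBall, Real.dist_eq, abs_of_pos (by linarith)]
    linarith
  · rw [hcy, dist_self] at hdt
    linarith
  · have hd : dist c y = c - y := by
      rw [Real.dist_eq, abs_of_pos (by linarith)]
    rw [hd] at hdρ hdt hyd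
    have hv : volume (Set.Ioc (y + s / 2) (y + t / 2)) = ENNReal.ofReal ((t - s) / 2) := by
      rw [Real.volume_Ioc]
      congr 1
      ring
    rw [← hv]
    apply measure_mono
    rintro x ⟨hx1, hx2⟩
    have h1 : Metric.infDist x B ≤ x - y := by
      refine (Metric.infDist_le_dist_of_mem hy).trans ?_
      rw [Real.dist_eq, abs_of_pos (by linarith)]
    have h2 : x - y ≤ Metric.infDist x B := by
      have := Metric.infDist_le_infDist_add_dist (s := B) (x := c) (y := x)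
      rw [hyd, Real.dist_eq, abs_of_pos (by linarith)] at this
      linarith
    refine ⟨⟨by linarith, by linarith⟩, ?_⟩
    rw [Metric.mem_closedBall, dist_comm, Real.dist_eq, abs_of_pos (by linarith)]
    linarith

/-- the shells are large -/
theorem core {B : Set ℝ} (hB : IsCompact B) {C : Set ℝ} {ρ s t : ℝ} (hρ : 0 < ρ)
    (hC : ∀ c ∈ C, ∀ y ∈ B, t ≤ |y - c|) (hs : 0 ≤ s) (hst : s ≤ t) (ht : 0 < t)
    {β : ENNReal} (hβ : β ≤ volume (B ∩ {x | ∃ c ∈ C, |x - c| < ρ})) :
    ENNReal.ofReal ((t - s) / 2) * β ≤ ENNReal.ofReal (8 * ρ) * volume (shell B s t) := by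
  rcases B.eq_empty_or_nonempty with hemp | hne
  · rw [hemp, Set.empty_inter, measure_empty] at hβ
    have : β = 0 := le_antisymm hβ bot_le
    rw [this, mul_zero]
    exact bot_le
  set C' : Set ℝ := {c | c ∈ C ∧ ∃ y ∈ B, |y - c| < ρ} with hC'
  obtain ⟨u, huC, hud, hucov⟩ := Vitali.exists_disjoint_subfamily_covering_enlargement_closedBall
    C' (fun c => c) (fun _ => ρ) ρ (fun _ _ => le_rfl) 4 (by norm_num)
  have hucnt : u.Countable := by
    refine hud.countable_of_nonempty_interior fun c _ => ?_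
    rw [interior_closedBall _ hρ.ne']
    exact ⟨c, Metric.mem_ball_self hρ⟩
  set N : ENNReal := ∑' _ : u, (1 : ENNReal) with hN
  have h1 : β ≤ ENNReal.ofReal (8 * ρ) * N := by
    refine hβ.trans ?_
    have hsub : B ∩ {x | ∃ c ∈ C, |x - c| < ρ} ⊆ ⋃ c ∈ u, Metric.closedBall c (4 * ρ) := by
      rintro x ⟨hxB, c, hcC, hxc⟩
      have hcC' : c ∈ C' := ⟨hcC, x, hxB, hxc⟩
      obtain ⟨b, hbu, hb⟩ := hucov c hcC'
      refine Set.mem_biUnion hbu (hb ?_)
      rw [Metric.mem_closedBall, Real.dist_eq]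
      exact hxc.le
    refine (measure_mono hsub).trans ((measure_biUnion_le volume hucnt _).trans ?_)
    have h2 : ∀ c : u, volume (Metric.closedBall (c : ℝ) (4 * ρ)) = ENNReal.ofReal (8 * ρ) * 1 := by
      intro c
      rw [Real.volume_closedBall, mul_one]
      congr 1
      ring
    rw [tsum_congr h2, ENNReal.tsum_mul_left]
  have h3 : ENNReal.ofReal ((t - s) / 2) * N ≤ volume (shell B s t) := by
    have hdisj : u.PairwiseDisjoint fun c => shell B s t ∩ Metric.closedBall c ρ := by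
      intro a ha b hb hab
      exact (hud ha hb hab).mono Set.inter_subset_right Set.inter_subset_right
    have hm : ∀ c ∈ u, MeasurableSet (shell B s t ∩ Metric.closedBall c ρ) := fun c _ =>
      (shell_meas B s t).inter Metric.isClosed_closedBall.measurableSet
    have h4 := measure_biUnion (μ := volume) hucnt hdisj hm
    have h5 : volume (⋃ c ∈ u, shell B s t ∩ Metric.closedBall c ρ) ≤ volume (shell B s t) := by
      apply measure_mono
      exact Set.iUnion₂_subset fun c _ => Set.inter_subset_left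
    refine le_trans ?_ h5
    rw [h4, hN, ← ENNReal.tsum_mul_left]
    refine ENNReal.tsum_le_tsum fun c => ?_
    rw [mul_one]
    have hcC' := huC c.2
    exact one_centre hB hne (hC _ hcC'.1) hcC'.2 hs hst ht
  calc ENNReal.ofReal ((t - s) / 2) * β ≤ ENNReal.ofReal ((t - s) / 2) *
        (ENNReal.ofReal (8 * ρ) * N) := mul_le_mul_right h1 _
    _ = ENNReal.ofReal (8 * ρ) * (ENNReal.ofReal ((t - s) / 2) * N) := by ring
    _ ≤ ENNReal.ofReal (8 * ρ) * volume (shell B s t) := mul_le_mul_right h3 _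

/-- the maximum of the later terms -/
theorem later_max (Φ : ℕ → ℝ) (κ : ℝ) (hκ : 0 < κ) (h0 : ∀ k, 0 < Φ k)
    (h1 : ∀ k, Φ k ≤ κ / 4 ^ k) (k : ℕ) : ∃ l, k ≤ l ∧ ∀ m, k ≤ m → Φ m ≤ Φ l := by
  have ht : Tendsto (fun m : ℕ => κ / (4 : ℝ) ^ m) atTop (nhds 0) := by
    have := tendsto_pow_atTop_nhds_zero_of_lt_one (r := (1 / 4 : ℝ)) (by norm_num) (by norm_num)
    have h2 := this.const_mul κ
    rw [mul_zero] at h2
    refine h2.congr fun m => ?_
    rw [one_div, inv_pow, div_eq_mul_inv]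
  obtain ⟨M, hM⟩ := (ht.eventually (gt_mem_nhds (h0 k))).exists_forall_of_atTop
  obtain ⟨l, hl, hlm⟩ := Finset.exists_max_image (Finset.Icc k (max k M)) Φ
    ⟨k, Finset.mem_Icc.2 ⟨le_rfl, le_max_left _ _⟩⟩
  refine ⟨l, (Finset.mem_Icc.1 hl).1, fun m hm => ?_⟩
  by_cases h : m ≤ max k M
  · exact hlm m (Finset.mem_Icc.2 ⟨hm, h⟩)
  · push Not at h
    have h3 := hM m (le_trans (le_max_right _ _) h.le)
    have h4 := hlm k (Finset.mem_Icc.2 ⟨le_rfl, le_max_left _ _⟩)
    exact ((h1 m).trans h3.le).trans h4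

/-- Abel summation -/
theorem abel (a : ℕ → ℝ) (κ : ℝ) (ha : ∀ k, 0 ≤ a k) (hκ : ∀ k, a k ≤ κ) (C : ℝ)
    (h : ∀ n, ∑ k ∈ Finset.range n, (a k - a (k + 1) / 4) ≤ C) : Summable a := by
  refine summable_of_sum_range_le (c := (4 / 3) * (C + κ / 4)) ha fun n => ?_
  have h1 := h n
  rw [Finset.sum_sub_distrib, ← Finset.sum_div] at h1
  have h2 := Finset.sum_range_succ' a n
  rw [Finset.sum_range_succ] at h2
  have h3 := ha 0
  have h4 := hκ n
  linarith

end UbiT

open UbiT

theorem ubiquity (κ : ℝ) (hκ : 0 < κ) (P : ℕ → Set ℝ) (Φ : ℕ → ℝ) (h0 : ∀ k, 0 < Φ k)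
    (h1 : ∀ k, Φ k ≤ κ / 4 ^ k) (hdiv : ¬ Summable (fun k : ℕ => Φ k * 4 ^ k))
    (hcov : ∀ a b : ℝ, 0 ≤ a → a < b → b ≤ 1 → ∀ᶠ k : ℕ in atTop,
      volume (Set.Icc a b \ {x : ℝ | ∃ c ∈ P k, |x - c| < κ / 4 ^ k}) ≤
        ENNReal.ofReal ((b - a) / 8)) :
    ∀ᵐ x : ℝ ∂(volume.restrict (Set.Icc 0 1)), ∃ᶠ k : ℕ in atTop, ∃ c ∈ P k, |x - c| < Φ k := by
  -- the bad sets
  set Bad : ℕ → Set ℝ := fun g => {x | ∀ k, g ≤ k → ∀ c ∈ P k, Φ k ≤ |x - c|} with hBad
  have hBadcl : ∀ g, IsClosed (Bad g) := by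
    intro g
    have : Bad g = ⋂ k, ⋂ _ : g ≤ k, ⋂ c, ⋂ _ : c ∈ P k, {x : ℝ | Φ k ≤ |x - c|} := by
      ext x
      simp [hBad]
    rw [this]
    refine isClosed_iInter fun k => isClosed_iInter fun _ => isClosed_iInter fun c =>
      isClosed_iInter fun _ => ?_
    exact isClosed_le continuous_const (continuous_id.sub continuous_const).abs
  rw [ae_restrict_iff' measurableSet_Icc, ae_iff]
  suffices hsuf : ∀ g, volume (Bad g ∩ Set.Icc (0 : ℝ) 1) = 0 by
    refine measure_mono_null ?_ (measure_iUnion_null hsuf)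
    intro x hx
    rw [Set.mem_ofPred_eq] at hx
    push Not at hx
    obtain ⟨hx1, hx2⟩ := hx
    obtain ⟨g, hg⟩ := eventually_atTop.1 hx2
    refine Set.mem_iUnion.2 ⟨g, fun k hk c hc => ?_, hx1⟩
    exact hg k hk c hc
  intro g
  by_contra hpos
  set s : Set ℝ := Bad g ∩ Set.Icc (0 : ℝ) 1 with hs
  have hsm : MeasurableSet s := (hBadcl g).measurableSet.inter measurableSet_Icc
  -- a density point
  obtain ⟨a, b, ha, hab, hb, hdens⟩ : ∃ a b : ℝ, 0 ≤ a ∧ a < b ∧ b ≤ 1 ∧
      ENNReal.ofReal ((b - a) / 8) < volume (s ∩ Set.Icc a b) := by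
    have hae := Besicovitch.ae_tendsto_measure_inter_div (volume : Measure ℝ) s
    have h01 : ∀ᵐ x ∂((volume : Measure ℝ).restrict s), x ≠ 0 ∧ x ≠ 1 := by
      have e0 : ∀ᵐ x ∂((volume : Measure ℝ).restrict s), x ≠ 0 := ae_restrict_of_ae (by
        rw [ae_iff]; simp)
      have e1 : ∀ᵐ x ∂((volume : Measure ℝ).restrict s), x ≠ 1 := ae_restrict_of_ae (by
        rw [ae_iff]; simp)
      exact e0.and e1
    have hmem : ∀ᵐ x ∂((volume : Measure ℝ).restrict s), x ∈ s := ae_restrict_mem hsm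
    have hne : (ae ((volume : Measure ℝ).restrict s)).NeBot := by
      rw [ae_neBot]
      intro h
      apply hpos
      have := Measure.restrict_apply_univ (μ := (volume : Measure ℝ)) s
      rw [h] at this
      simpa using this.symm
    obtain ⟨x, hx1, hx2, hx3⟩ := (hae.and (h01.and hmem)).exists
    have hx01 : 0 < x ∧ x < 1 := by
      obtain ⟨-, h3, h4⟩ := hx3
      exact ⟨lt_of_le_of_ne h3 (Ne.symm hx2.1), lt_of_le_of_ne h4 hx2.2⟩
    have hev : ∀ᶠ r in nhdsWithin (0 : ℝ) (Set.Ioi 0),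
        (1 / 8 : ENNReal) < volume (s ∩ Metric.closedBall x r) / volume (Metric.closedBall x r) := by
      refine hx1.eventually (lt_mem_nhds ?_)
      rw [one_div]
      exact ENNReal.inv_lt_one.2 (by norm_num)
    have hev2 : ∀ᶠ r in nhdsWithin (0 : ℝ) (Set.Ioi 0), r < min x (1 - x) := by
      refine nhdsWithin_le_nhds (gt_mem_nhds (lt_min hx01.1 (by linarith [hx01.2])))
    obtain ⟨r, ⟨hr1, hr2⟩, hr3⟩ := ((hev.and hev2).and self_mem_nhdsWithin).exists
    have hr3' : 0 < r := hr3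
    have hr4 := lt_min_iff.1 hr2
    refine ⟨x - r, x + r, by linarith, by linarith, by linarith, ?_⟩
    rw [Real.closedBall_eq_Icc, Real.volume_Icc,
      ENNReal.lt_div_iff_mul_lt (Or.inl (by
        rw [Ne, ENNReal.ofReal_eq_zero]
        push Not
        linarith)) (Or.inl ENNReal.ofReal_ne_top)] at hr1
    refine lt_of_eq_of_lt ?_ hr1
    have e8 : (1 / 8 : ENNReal) = ENNReal.ofReal (1 / 8) := by
      rw [ENNReal.ofReal_div_of_pos (by norm_num)]
      norm_num
    rw [e8, ← ENNReal.ofReal_mul (by norm_num)]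
    congr 1
    ring
  set B : Set ℝ := s ∩ Set.Icc a b with hBdef
  have hBc : IsCompact B := by
    have : B = Set.Icc a b ∩ (Bad g ∩ Set.Icc (0 : ℝ) 1) := Set.inter_comm _ _
    rw [this]
    exact isCompact_Icc.inter_right ((hBadcl g).inter isClosed_Icc)
  have hBsub : B ⊆ Set.Icc (0 : ℝ) 1 := fun x hx => hx.1.2
  have hBfin : volume B ≠ ⊤ := hBc.measure_lt_top.ne
  set β : ENNReal := volume B - ENNReal.ofReal ((b - a) / 8) with hβ
  have hβ0 : 0 < β := tsub_pos_of_lt hdens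
  have hβt : β ≠ ⊤ := ne_top_of_le_ne_top hBfin tsub_le_self
  have hβr : 0 < β.toReal := ENNReal.toReal_pos hβ0.ne' hβt
  obtain ⟨k0, hk0⟩ := eventually_atTop.1 ((hcov a b ha hab hb).and (eventually_ge_atTop g))
  -- the covered part
  have hcovB : ∀ l, k0 ≤ l → β ≤ volume (B ∩ {x : ℝ | ∃ c ∈ P l, |x - c| < κ / 4 ^ l}) := by
    intro l hl
    have h2 := (hk0 l hl).1
    rw [hβ, tsub_le_iff_right]
    calc volume B ≤ volume (B ∩ {x : ℝ | ∃ c ∈ P l, |x - c| < κ / 4 ^ l}) +
          volume (B \ {x : ℝ | ∃ c ∈ P l, |x - c| < κ / 4 ^ l}) := measure_le_inter_add_diff _ _ _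
      _ ≤ _ := by
        gcongr
        exact (measure_mono (Set.diff_subset_diff_left Set.inter_subset_right)).trans h2
  choose L hL1 hL2 using later_max Φ κ hκ h0 h1
  set Ψ : ℕ → ℝ := fun k => Φ (L k) with hΨ
  have hΨanti : ∀ k, Ψ (k + 1) ≤ Ψ k := fun k => hL2 k _ (by have := hL1 (k + 1); omega)
  have hΨanti' : Antitone Ψ := antitone_nat_of_succ_le hΨanti
  have hΨ0 : ∀ k, 0 < Ψ k := fun k => h0 _
  have hΨ1 : ∀ k, Φ k ≤ Ψ k := fun k => hL2 k k le_rfl
  have hpow : ∀ k l : ℕ, k ≤ l → κ / (4 : ℝ) ^ l ≤ κ / 4 ^ k := by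
    intro k l hkl
    have : (4 : ℝ) ^ k ≤ 4 ^ l := pow_le_pow_right₀ (by norm_num) hkl
    gcongr
  have hΨκ : ∀ k, Ψ k ≤ κ / 4 ^ k := fun k => (h1 _).trans (hpow _ _ (hL1 k))
  -- the shells
  have hcore : ∀ k, k0 ≤ k → ENNReal.ofReal ((Ψ k - Ψ (k + 1)) / 2) * β ≤
      ENNReal.ofReal (8 * (κ / 4 ^ k)) * volume (shell B (Ψ (k + 1)) (Ψ k)) := by
    intro k hk
    have hl : k0 ≤ L k := hk.trans (hL1 k)
    have h2 := core hBc (C := P (L k)) (ρ := κ / 4 ^ (L k)) (s := Ψ (k + 1)) (t := Ψ k)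
      (by positivity) (fun c hc y hy => hy.1.1 (L k) ((hk0 _ hl).2) c hc) (hΨ0 _).le (hΨanti k)
      (hΨ0 _) (hcovB _ hl)
    refine h2.trans (mul_le_mul_left (ENNReal.ofReal_le_ofReal ?_) _)
    have := hpow _ _ (hL1 k)
    linarith
  have hBne : B.Nonempty := by
    rw [Set.nonempty_iff_ne_empty]
    intro h
    rw [h] at hdens
    simp at hdens
  have hshell_sub : ∀ k, shell B (Ψ (k + 1)) (Ψ k) ⊆ Set.Icc (-κ) (1 + κ) := by
    intro k x hx
    obtain ⟨y, hy, hyd⟩ := hBc.exists_infDist_eq_dist hBne x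
    have h2 := hx.2
    rw [hyd, Real.dist_eq] at h2
    have h3 := hBsub hy
    have h4 : Ψ k ≤ κ := by
      have := (hΨκ k).trans (hpow 0 k (Nat.zero_le k))
      simpa using this
    have h5 := abs_le.1 h2
    constructor <;> linarith [h3.1, h3.2, h5.1, h5.2]
  have hshell_fin : ∀ k, volume (shell B (Ψ (k + 1)) (Ψ k)) ≠ ⊤ := by
    intro k
    refine ne_top_of_le_ne_top ?_ (measure_mono (hshell_sub k))
    rw [Real.volume_Icc]
    exact ENNReal.ofReal_ne_top
  have hdisj : ∀ i j, i < j → Disjoint (shell B (Ψ (i + 1)) (Ψ i)) (shell B (Ψ (j + 1)) (Ψ j)) := by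
    intro i j hij
    rw [Set.disjoint_left]
    intro x hx hx'
    have h2 := hx.1
    have h3 := hx'.2
    have h4 : Ψ j ≤ Ψ (i + 1) := hΨanti' (by omega)
    linarith
  have hsum : ∀ n, ∑ k ∈ Finset.range n, (volume (shell B (Ψ (k0 + k + 1)) (Ψ (k0 + k)))).toReal ≤
      1 + 2 * κ := by
    intro n
    rw [← ENNReal.toReal_sum (fun k _ => hshell_fin _)]
    have h2 : ∑ k ∈ Finset.range n, volume (shell B (Ψ (k0 + k + 1)) (Ψ (k0 + k))) =
        volume (⋃ k ∈ Finset.range n, shell B (Ψ (k0 + k + 1)) (Ψ (k0 + k))) := by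
      rw [measure_biUnion_finset]
      · intro i _ j _ hij
        rcases lt_or_gt_of_ne hij with h | h
        · exact hdisj _ _ (by omega)
        · exact (hdisj _ _ (by omega)).symm
      · intro k _
        exact shell_meas _ _ _
    rw [h2]
    have h3 : volume (⋃ k ∈ Finset.range n, shell B (Ψ (k0 + k + 1)) (Ψ (k0 + k))) ≤
        ENNReal.ofReal (1 + 2 * κ) := by
      refine (measure_mono (Set.iUnion₂_subset fun k _ => hshell_sub _)).trans ?_
      rw [Real.volume_Icc]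
      apply ENNReal.ofReal_le_ofReal
      linarith
    exact ENNReal.toReal_le_of_le_ofReal (by linarith) h3
  have hcoreR : ∀ k, k0 ≤ k → Ψ k * 4 ^ k - Ψ (k + 1) * 4 ^ (k + 1) / 4 ≤
      (16 * κ / β.toReal) * (volume (shell B (Ψ (k + 1)) (Ψ k))).toReal := by
    intro k hk
    have h2 := ENNReal.toReal_mono (ENNReal.mul_ne_top ENNReal.ofReal_ne_top (hshell_fin k))
      (hcore k hk)
    rw [ENNReal.toReal_mul, ENNReal.toReal_mul,
      ENNReal.toReal_ofReal (by have := hΨanti k; linarith),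
      ENNReal.toReal_ofReal (by positivity)] at h2
    have h4 : (0 : ℝ) < 4 ^ k := by positivity
    rw [div_mul_eq_mul_div, le_div_iff₀ hβr]
    have e1 : Ψ k * 4 ^ k - Ψ (k + 1) * 4 ^ (k + 1) / 4 = (Ψ k - Ψ (k + 1)) / 2 * (2 * 4 ^ k) := by
      rw [pow_succ]
      ring
    rw [e1]
    calc (Ψ k - Ψ (k + 1)) / 2 * (2 * 4 ^ k) * β.toReal =
          ((Ψ k - Ψ (k + 1)) / 2 * β.toReal) * (2 * 4 ^ k) := by ring
      _ ≤ (8 * (κ / 4 ^ k) * (volume (shell B (Ψ (k + 1)) (Ψ k))).toReal) * (2 * 4 ^ k) := by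
        gcongr
      _ = 16 * κ * (volume (shell B (Ψ (k + 1)) (Ψ k))).toReal := by
        field_simp
        ring
  apply hdiv
  have hS : Summable (fun k : ℕ => Ψ (k0 + k) * 4 ^ (k0 + k)) := by
    refine abel _ κ (fun k => by have := hΨ0 (k0 + k); positivity) (fun k => ?_)
      ((16 * κ / β.toReal) * (1 + 2 * κ)) fun n => ?_
    · have h2 := hΨκ (k0 + k)
      rw [le_div_iff₀ (by positivity)] at h2
      exact h2
    · calc ∑ k ∈ Finset.range n, (Ψ (k0 + k) * 4 ^ (k0 + k) -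
            Ψ (k0 + (k + 1)) * 4 ^ (k0 + (k + 1)) / 4) ≤ ∑ k ∈ Finset.range n,
            (16 * κ / β.toReal) * (volume (shell B (Ψ (k0 + k + 1)) (Ψ (k0 + k)))).toReal :=
            Finset.sum_le_sum fun k _ => hcoreR (k0 + k) (by omega)
        _ = (16 * κ / β.toReal) *
            ∑ k ∈ Finset.range n, (volume (shell B (Ψ (k0 + k + 1)) (Ψ (k0 + k)))).toReal := by
            rw [Finset.mul_sum]
        _ ≤ (16 * κ / β.toReal) * (1 + 2 * κ) := by
            have := hsum n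
            gcongr
  have hS2 : Summable (fun k : ℕ => Φ (k + k0) * 4 ^ (k + k0)) := by
    refine Summable.of_nonneg_of_le (fun k => by have := h0 (k + k0); positivity) (fun k => ?_) hS
    rw [add_comm k0 k]
    have := hΨ1 (k + k0)
    gcongr
  exact (summable_nat_add_iff k0).1 hS2

end Pool.Agent.TH443.MJ
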