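import Mathlib

set_option autoImplicit false

/-!
# Independence of two linearly independent linear forms mod 1 (helper429 for helper443)
-/

open MeasureTheory Filter

namespace Pool.Agent.TH443.MJ

namespace VolT

/-- the projection to the torus -/
noncomputable def tm (m : ℕ) (x : Fin m → ℝ) : Fin m → UnitAddCircle :=
  fun j => (x j : UnitAddCircle)

theorem tm_mp (m : ℕ) : MeasurePreserving (tm m)
    ((volume : Measure (Fin m → ℝ)).restrict {x : Fin m → ℝ | ∀ j, x j ∈ Set.Ico (0 : ℝ) 1})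
    volume := by
  have h1 : (volume : Measure (Fin m → ℝ)).restrict {x : Fin m → ℝ | ∀ j, x j ∈ Set.Ico (0 : ℝ) 1}
      = Measure.pi (fun _ : Fin m => (volume : Measure ℝ).restrict (Set.Ioc (0 : ℝ) (0 + 1))) := by
    rw [← Measure.restrict_pi_pi]
    have h2 : {x : Fin m → ℝ | ∀ j, x j ∈ Set.Ico (0 : ℝ) 1} =
        Set.univ.pi fun _ : Fin m => Set.Ico (0 : ℝ) 1 := by
      ext x
      simp only [Set.mem_ofPred_eq, Set.mem_univ_pi]
    rw [h2]
    apply Measure.restrict_congr_set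
    rw [zero_add]
    exact (Measure.univ_pi_Ico_ae_eq_Icc (μ := fun _ : Fin m => (volume : Measure ℝ))
      (f := fun _ => (0 : ℝ)) (g := fun _ => (1 : ℝ))).trans
      (Measure.univ_pi_Ioc_ae_eq_Icc (μ := fun _ : Fin m => (volume : Measure ℝ))
        (f := fun _ => (0 : ℝ)) (g := fun _ => (1 : ℝ))).symm
  rw [h1]
  exact measurePreserving_pi _ _ (fun _ => AddCircle.measurePreserving_mk 1 0)

/-- the arc about `θ` -/
def arc (θ δ : ℝ) : Set UnitAddCircle := (fun x : ℝ => (x : UnitAddCircle)) '' Set.Ioo (θ - δ) (θ + δ)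

theorem mem_arc (θ δ x : ℝ) : (x : UnitAddCircle) ∈ arc θ δ ↔ ∃ p : ℤ, |x - p - θ| < δ := by
  constructor
  · rintro ⟨y, hy, hxy⟩
    have h1 : ((x - y : ℝ) : UnitAddCircle) = 0 := by
      have hxy' : (y : UnitAddCircle) = (x : UnitAddCircle) := hxy
      rw [AddCircle.coe_sub, hxy', sub_self]
    obtain ⟨n, hn⟩ := AddCircle.coe_eq_zero_iff _ |>.1 h1
    refine ⟨n, ?_⟩
    rw [zsmul_eq_mul, mul_one] at hn
    rw [abs_lt]
    constructor <;> linarith [hy.1, hy.2]
  · rintro ⟨p, hp⟩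
    rw [abs_lt] at hp
    refine ⟨x - p, ⟨by linarith, by linarith⟩, ?_⟩
    show ((x - p : ℝ) : UnitAddCircle) = x
    rw [AddCircle.coe_sub]
    have : ((p : ℝ) : UnitAddCircle) = 0 := by
      rw [AddCircle.coe_eq_zero_iff]
      exact ⟨p, by rw [zsmul_eq_mul, mul_one]⟩
    rw [this, sub_zero]

theorem arc_open (θ δ : ℝ) : IsOpen (arc θ δ) :=
  QuotientAddGroup.isOpenMap_coe _ isOpen_Ioo

theorem arc_vol (θ δ : ℝ) (hδ1 : δ ≤ 1 / 2) :
    volume (arc θ δ) = ENNReal.ofReal (2 * δ) := by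
  have h1 := AddCircle.add_projection_respects_measure 1 (θ - 1 / 2) (arc_open θ δ).measurableSet
  rw [h1]
  have h2 : QuotientAddGroup.mk ⁻¹' (arc θ δ) ∩ Set.Ioc (θ - 1 / 2) (θ - 1 / 2 + 1) =
      Set.Ioo (θ - δ) (θ + δ) := by
    ext x
    constructor
    · rintro ⟨hx1, hx2⟩
      obtain ⟨p, hp⟩ := (mem_arc θ δ x).1 hx1
      rw [abs_lt] at hp
      have h3 : (-1 : ℝ) < p := by linarith [hx2.1, hx2.2, hp.1, hp.2]
      have h4 : (p : ℝ) < 1 := by linarith [hx2.1, hx2.2, hp.1, hp.2]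
      have h5 : p = 0 := by
        have h3' : (-1 : ℤ) < p := by exact_mod_cast h3
        have h4' : p < 1 := by exact_mod_cast h4
        omega
      rw [h5] at hp
      push_cast at hp
      exact ⟨by linarith, by linarith⟩
    · intro hx
      refine ⟨(mem_arc θ δ x).2 ⟨0, ?_⟩, ?_⟩
      · push_cast
        rw [abs_lt]
        constructor <;> linarith [hx.1, hx.2]
      · constructor <;> linarith [hx.1, hx.2]
  rw [h2, Real.volume_Ioo]
  congr 1
  ring

/-- the linear form on the torus -/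
noncomputable def frm (m : ℕ) (q : Fin m → ℤ) : (Fin m → UnitAddCircle) →+ UnitAddCircle :=
  ∑ j, (q j) • (Pi.evalAddMonoidHom (fun _ : Fin m => UnitAddCircle) j)

theorem frm_apply (m : ℕ) (q : Fin m → ℤ) (t : Fin m → UnitAddCircle) :
    frm m q t = ∑ j, q j • t j := by
  unfold frm
  rw [AddMonoidHom.finsetSum_apply]
  rfl

theorem frm_cont (m : ℕ) (q : Fin m → ℤ) : Continuous (frm m q) := by
  have : (frm m q : (Fin m → UnitAddCircle) → UnitAddCircle) = fun t => ∑ j, q j • t j := by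
    funext t
    exact frm_apply m q t
  rw [this]
  exact continuous_finsetSum _ fun j _ => (continuous_apply j).zsmul (q j)

theorem frm_tm (m : ℕ) (q : Fin m → ℤ) (x : Fin m → ℝ) :
    frm m q (tm m x) = ((∑ j, (q j : ℝ) * x j : ℝ) : UnitAddCircle) := by
  rw [frm_apply]
  unfold tm
  have h1 : ∀ (s : Finset (Fin m)), ∑ j ∈ s, q j • ((x j : ℝ) : UnitAddCircle) =
      ((∑ j ∈ s, (q j : ℝ) * x j : ℝ) : UnitAddCircle) := by
    classical
    intro s
    induction s using Finset.induction_on with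
    | empty => simp
    | insert a s ha ih =>
      rw [Finset.sum_insert ha, Finset.sum_insert ha, AddCircle.coe_add, ih]
      congr 1
      rw [← AddCircle.coe_zsmul, zsmul_eq_mul]
  exact h1 Finset.univ

theorem frm_surj (m : ℕ) (q : Fin m → ℤ) (hq : q ≠ 0) : Function.Surjective (frm m q) := by
  intro b
  obtain ⟨b, rfl⟩ := QuotientAddGroup.mk_surjective b
  obtain ⟨j, hj⟩ := Function.ne_iff.1 hq
  have hj' : (q j : ℝ) ≠ 0 := by exact_mod_cast hj
  refine ⟨tm m (Pi.single j (b / q j)), ?_⟩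
  rw [frm_tm]
  have : ∑ k, (q k : ℝ) * (Pi.single j (b / q j) : Fin m → ℝ) k = b := by
    rw [Finset.sum_eq_single j]
    · rw [Pi.single_eq_same]
      field_simp
    · intro k _ hk
      rw [Pi.single_eq_of_ne hk, mul_zero]
    · intro h
      exact absurd (Finset.mem_univ j) h
  rw [this]

theorem pair_surj (m : ℕ) (q q' : Fin m → ℤ)
    (h : ∀ a b : ℤ, (∀ j, a * q j = b * q' j) → a = 0 ∧ b = 0) :
    Function.Surjective ((frm m q).prod (frm m q')) := by
  -- a nonzero minor
  have hD : ∃ j l, q j * q' l - q l * q' j ≠ 0 := by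
    by_contra hc
    push Not at hc
    by_cases hq : ∀ j, q j = 0
    · have := (h 1 0 (by intro j; rw [hq j]; ring)).1
      omega
    · push Not at hq
      obtain ⟨j0, hj0⟩ := hq
      have := (h (q' j0) (q j0) (by intro j; have := hc j j0; linarith)).2
      exact hj0 this
  obtain ⟨j, l, hjl⟩ := hD
  have hne : j ≠ l := by
    rintro rfl
    apply hjl
    ring
  rintro ⟨a, b⟩
  obtain ⟨a, rfl⟩ := QuotientAddGroup.mk_surjective a
  obtain ⟨b, rfl⟩ := QuotientAddGroup.mk_surjective b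
  set D : ℝ := (q j : ℝ) * q' l - q l * q' j with hDdef
  have hD0 : D ≠ 0 := by
    rw [hDdef]
    exact_mod_cast hjl
  set x : Fin m → ℝ := fun k => if k = j then (a * q' l - b * q l) / D else
    if k = l then (q j * b - q' j * a) / D else 0 with hx
  have hsum : ∀ r : Fin m → ℤ, ∑ k, (r k : ℝ) * x k =
      r j * ((a * q' l - b * q l) / D) + r l * ((q j * b - q' j * a) / D) := by
    intro r
    have h1 : ∑ k, (r k : ℝ) * x k = ∑ k ∈ ({j, l} : Finset (Fin m)), (r k : ℝ) * x k := by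
      symm
      apply Finset.sum_subset (Finset.subset_univ _)
      intro k _ hk
      have hk1 : k ≠ j := by
        rintro rfl
        exact hk (by simp)
      have hk2 : k ≠ l := by
        rintro rfl
        exact hk (by simp)
      rw [hx]
      simp only [hk1, hk2, if_false, mul_zero]
    rw [h1, Finset.sum_pair hne]
    have e1 : x j = (a * q' l - b * q l) / D := by rw [hx]; simp
    have e2 : x l = (q j * b - q' j * a) / D := by rw [hx]; simp [hne.symm]
    rw [e1, e2]
  refine ⟨tm m x, ?_⟩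
  rw [AddMonoidHom.prod_apply, frm_tm, frm_tm, hsum, hsum]
  have e1 : (q j : ℝ) * ((a * q' l - b * q l) / D) + q l * ((q j * b - q' j * a) / D) = a := by
    field_simp
    rw [hDdef]
    ring
  have e2 : (q' j : ℝ) * ((a * q' l - b * q l) / D) + q' l * ((q j * b - q' j * a) / D) = b := by
    field_simp
    rw [hDdef]
    ring
  rw [e1, e2]

theorem vol_univ (m : ℕ) : (volume : Measure (Fin m → UnitAddCircle)) Set.univ = 1 := by
  rw [volume_pi, Measure.pi_univ]
  simp

end VolT

open VolT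

theorem vol_single (m : ℕ) (q : Fin m → ℤ) (hq : q ≠ 0) (θ δ : ℝ) (hδ : 0 < δ)
    (hδ1 : δ ≤ 1 / 2) :
    volume {x : Fin m → ℝ | (∀ j, x j ∈ Set.Ico (0 : ℝ) 1) ∧
      ∃ p : ℤ, |∑ j, (q j : ℝ) * x j - p - θ| < δ} = ENNReal.ofReal (2 * δ) := by
  have h1 : MeasurePreserving (frm m q) (volume : Measure (Fin m → UnitAddCircle)) volume :=
    (frm m q).measurePreserving (frm_cont m q) (frm_surj m q hq) (by rw [vol_univ]; simp)
  have h2 := h1.comp (tm_mp m)
  have h3 := h2.measure_preimage (arc_open θ δ).measurableSet.nullMeasurableSet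
  rw [arc_vol θ δ hδ1, Measure.restrict_apply (h2.measurable (arc_open θ δ).measurableSet)] at h3
  rw [← h3]
  congr 1
  ext x
  rw [Set.mem_ofPred_eq, Set.mem_inter_iff, Set.mem_ofPred_eq, Set.mem_preimage,
    Function.comp_apply, frm_tm, mem_arc]
  exact and_comm

theorem vol_pair (m : ℕ) (q q' : Fin m → ℤ)
    (h : ∀ a b : ℤ, (∀ j, a * q j = b * q' j) → a = 0 ∧ b = 0) (θ θ' δ δ' : ℝ) (hδ : 0 < δ)
    (hδ1 : δ ≤ 1 / 2) (hδ' : 0 < δ') (hδ'1 : δ' ≤ 1 / 2) :
    volume {x : Fin m → ℝ | (∀ j, x j ∈ Set.Ico (0 : ℝ) 1) ∧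
      (∃ p : ℤ, |∑ j, (q j : ℝ) * x j - p - θ| < δ) ∧
      (∃ p : ℤ, |∑ j, (q' j : ℝ) * x j - p - θ'| < δ')} =
      ENNReal.ofReal (2 * δ) * ENNReal.ofReal (2 * δ') := by
  have h1 : MeasurePreserving ((frm m q).prod (frm m q'))
      (volume : Measure (Fin m → UnitAddCircle))
      ((volume : Measure UnitAddCircle).prod (volume : Measure UnitAddCircle)) :=
    ((frm m q).prod (frm m q')).measurePreserving ((frm_cont m q).prodMk (frm_cont m q'))
      (pair_surj m q q' h) (by
        rw [vol_univ, ← Set.univ_prod_univ, Measure.prod_prod]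
        simp)
  have h2 := h1.comp (tm_mp m)
  have hm : MeasurableSet (arc θ δ ×ˢ arc θ' δ') :=
    (arc_open θ δ).measurableSet.prod (arc_open θ' δ').measurableSet
  have h3 := h2.measure_preimage hm.nullMeasurableSet
  rw [Measure.prod_prod, arc_vol θ δ hδ1, arc_vol θ' δ' hδ'1,
    Measure.restrict_apply (h2.measurable hm)] at h3
  rw [← h3]
  congr 1
  ext x
  rw [Set.mem_ofPred_eq, Set.mem_inter_iff, Set.mem_ofPred_eq, Set.mem_preimage,
    Function.comp_apply, AddMonoidHom.prod_apply, Set.mem_prod, frm_tm, frm_tm, mem_arc, mem_arc]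
  exact and_comm

end Pool.Agent.TH443.MJ
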